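import Pool.Agent.Lib.MP_069d55_gt.GEq

/-! The two questions have the same answer for every surface. -/

namespace Pool.Agent.Results.MP_069d55_gt.Equiv

open Pool.Agent.Lib.MP_069d55_gt Pool.Agent.Lib.MP_069d55_gt.G

theorem result (S : Type) [TopologicalSpace S] [T2Space S] [SecondCountableTopology S]
    [ConnectedSpace S] [ChartedSpace ℂ S] [Oriented S] : Q1 (Map S) ↔ Q2 (Map S) :=
  map_iff.1.trans map_iff.2.symm

end Pool.Agent.Results.MP_069d55_gt.Equiv
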