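import Pool.Agent.Lib.MP_069d55_gt.GFin

/-! Question 1 for surfaces of positive genus reduces to the space of ends. -/

namespace Pool.Agent.Results.MP_069d55_gt.PosGenus

open Pool.Agent.Lib.MP_069d55_gt Pool.Agent.Lib.MP_069d55_gt.G

theorem result (S : Type) [TopologicalSpace S] [T2Space S] [SecondCountableTopology S]
    [ConnectedSpace S] [ChartedSpace ℂ S] [Oriented S] (p : S → OnePoint ℂ)
    (E X : Set (OnePoint ℂ)) (h : Model p E X) (hX : X.Nonempty) :
    Q1 (Map S) ↔ X.Finite ∨ HFlux (genusEnds E X) ∨ Q1 (CO (Aut (genusEnds E X))) :=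
  genus_iff h hX

end Pool.Agent.Results.MP_069d55_gt.PosGenus
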