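import Pool.Agent.Lib.MP_069d55_gt.GFin

/-! Question 2 for all surfaces with stable space of ends. -/

namespace Pool.Agent.Results.MP_069d55_gt.StableQ2

open Pool.Agent.Lib.MP_069d55_gt Pool.Agent.Lib.MP_069d55_gt.G

theorem result (S : Type) [TopologicalSpace S] [T2Space S] [SecondCountableTopology S]
    [ConnectedSpace S] [ChartedSpace ℂ S] [Oriented S] (p : S → OnePoint ℂ)
    (E X : Set (OnePoint ℂ)) (h : Model p E X) (hs : Stable (genusEnds E X)) :
    Q2 (Map S) ↔ (X.Finite ∧ X.Nonempty) ∨ Flux (genusEnds E X) ∨ HFlux (genusEnds E X) ∨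
      (X = ∅ ∧ Link (genusEnds E X)) :=
  (map_iff.2.trans map_iff.1.symm).trans (stable_iff h hs)

end Pool.Agent.Results.MP_069d55_gt.StableQ2
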